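import Mathlib

set_option autoImplicit false

/-!
For `1 ≤ p < ∞` not an even integer, `ℓ_p` admits no `C^∞` blid map.
-/

namespace Pool.Agent.Results.MP_94b2f9_an.NoBlid

open Filter Topology ENNReal

/-- The real Banach space `ℓ_p`. -/
abbrev ell (p : ℝ≥0∞) : Type := lp (fun _ : ℕ => ℝ) p

/-- `H` is a `C^q` blid map on `X`. -/
def IsBlid {X : Type} [NormedAddCommGroup X] [NormedSpace ℝ X] (q : ℕ∞) (H : X → X) : Prop :=
  ContDiff ℝ q H ∧ (∃ M : ℝ, ∀ x, ‖H x‖ ≤ M) ∧ ∀ᶠ x in 𝓝 (0 : X), H x = x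

section basics

variable {p : ℝ≥0∞} [Fact (1 ≤ p)]

/-- The unit vectors. -/
noncomputable def e (p : ℝ≥0∞) [Fact (1 ≤ p)] (k : ℕ) : ell p := lp.single p k (1 : ℝ)

/-- The coordinate functionals. -/
noncomputable def co (p : ℝ≥0∞) [Fact (1 ≤ p)] (k : ℕ) : ell p →L[ℝ] ℝ :=
  lp.evalCLM ℝ (fun _ : ℕ => ℝ) p k

lemma co_apply (k : ℕ) (x : ell p) : co p k x = x k := rfl

lemma p_pos : 0 < p := zero_lt_one.trans_le Fact.out

lemma one_le_r (hp : p ≠ ∞) : 1 ≤ p.toReal := by
  have h : (1 : ℝ≥0∞) ≤ p := Fact.out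
  rw [← ENNReal.toReal_one]
  exact (ENNReal.toReal_le_toReal (by simp) hp).2 h

lemma norm_e (k : ℕ) : ‖e p k‖ = 1 := by
  rw [e, lp.norm_single p_pos, norm_one]

lemma e_self (k : ℕ) : e p k k = 1 := lp.single_apply_self (E := fun _ : ℕ => ℝ) p k (1 : ℝ)

lemma e_ne {k l : ℕ} (h : l ≠ k) : e p k l = 0 :=
  lp.single_apply_ne (E := fun _ : ℕ => ℝ) p k (1 : ℝ) h

lemma norm_sub_e (k l : ℕ) : ‖e p k - e p l‖ ≤ 2 := by
  refine (norm_sub_le _ _).trans ?_
  rw [norm_e, norm_e]; norm_num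

lemma abs_apply_le (x : ell p) (k : ℕ) : |x k| ≤ ‖x‖ :=
  lp.norm_apply_le_norm p_pos.ne' x k

lemma norm_sum_e (hp : p ≠ ∞) (S : Finset ℕ) :
    ‖∑ s ∈ S, e p s‖ = (S.card : ℝ) ^ (p.toReal)⁻¹ := by
  have hr : 0 < p.toReal := by linarith [one_le_r (p := p) hp]
  have h := lp.norm_sum_single (E := fun _ : ℕ => ℝ) (p := p) hr (fun _ => 1) S
  have h2 : ∑ i ∈ S, ‖(1 : ℝ)‖ ^ p.toReal = S.card := by simp
  rw [h2] at h
  rw [← h, ← Real.rpow_mul (norm_nonneg _), mul_inv_cancel₀ hr.ne', Real.rpow_one]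
  rfl

end basics

section weak

variable {p : ℝ≥0∞} [Fact (1 ≤ p)] {j : ℕ}

/-- The arguments: `e k` on `A` and `v` elsewhere. -/
noncomputable def arg (A : Finset (Fin j)) (v : Fin j → ell p) (ρ : Fin j → ℕ) : Fin j → ell p :=
  fun i => if i ∈ A then e p (ρ i) else v i

/-- `e` in the definition of weak nullness. -/
def WeakNull (B : ContinuousMultilinearMap ℝ (fun _ : Fin j => ell p) ℝ) (A : Finset (Fin j)) :
    Prop :=
  ∀ v : Fin j → ell p, Tendsto (fun k => B (arg A v fun _ => k)) atTop (𝓝 0)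

/-- Choice of a large finite set on which the mixed terms are small. -/
lemma exists_finset (B : ContinuousMultilinearMap ℝ (fun _ : Fin j => ell p) ℝ)
    (A : Finset (Fin j)) (hA : A.Nonempty)
    (ih : ∀ A' : Finset (Fin j), A' ⊂ A → A'.Nonempty → WeakNull B A') (v : Fin j → ell p)
    (K : Set ℕ) (hK : K.Infinite) (η : ℝ) (hη : 0 < η) (n : ℕ) :
    ∃ S : Finset ℕ, (S : Set ℕ) ⊆ K ∧ S.card = n ∧ ∀ ρ : Fin j → ℕ, (∀ i ∈ A, ρ i ∈ S) →
      (¬ ∃ s, ∀ i ∈ A, ρ i = s) → |B (arg A v ρ)| ≤ η := by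
  induction n with
  | zero =>
    refine ⟨∅, by simp, by simp, fun ρ hρ _ => ?_⟩
    obtain ⟨i, hi⟩ := hA
    exact absurd (hρ i hi) (by simp)
  | succ n ihn =>
    obtain ⟨S, hSK, hcard, hS⟩ := ihn
    have h1 : ∀ᶠ k in atTop, ∀ A' ∈ A.powerset.filter (fun A' => A' ≠ A ∧ A'.Nonempty),
        ∀ ρ' ∈ Fintype.piFinset (fun _ : Fin j => insert 0 S),
          |B (arg A' (arg A v ρ') fun _ => k)| ≤ η := by
      rw [Filter.eventually_all_finset]
      intro A' hA'
      rw [Filter.eventually_all_finset]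
      intro ρ' _
      rw [Finset.mem_filter, Finset.mem_powerset] at hA'
      have h2 := ih A' (lt_of_le_of_ne hA'.1 hA'.2.1) hA'.2.2 (arg A v ρ')
      have h3 := (tendsto_order.1 h2.abs).2 η (by simpa using hη)
      exact h3.mono fun k hk => hk.le
    obtain ⟨k, hkK, hk, hkS⟩ := ((Nat.frequently_atTop_iff_infinite.2 hK).and_eventually
      (h1.and (eventually_gt_atTop (S.sup id)))).exists
    have hkS' : k ∉ S := fun h => absurd (Finset.le_sup (f := id) h) (not_le.2 hkS)
    refine ⟨insert k S, ?_, by rw [Finset.card_insert_of_notMem hkS', hcard], ?_⟩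
    · intro s hs
      rw [Finset.mem_coe, Finset.mem_insert] at hs
      rcases hs with rfl | hs
      · exact hkK
      · exact hSK hs
    · intro ρ hρ hconst
      set A' := A.filter fun i => ρ i = k with hA'
      by_cases hne : A'.Nonempty
      · have hne2 : A' ≠ A := by
          intro h
          apply hconst
          refine ⟨k, fun i hi => ?_⟩
          rw [← h] at hi
          exact (Finset.mem_filter.1 hi).2
        set ρ' : Fin j → ℕ := fun i => if ρ i ∈ S then ρ i else 0 with hρ'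
        have h3 := hk A' (Finset.mem_filter.2 ⟨Finset.mem_powerset.2 (Finset.filter_subset _ _),
          hne2, hne⟩) ρ' (Fintype.mem_piFinset.2 fun i => by
            rw [hρ']
            change (if ρ i ∈ S then ρ i else 0) ∈ insert 0 S
            split_ifs with h
            · exact Finset.mem_insert_of_mem h
            · exact Finset.mem_insert_self _ _)
        have h4 : arg A' (arg A v ρ') (fun _ => k) = arg A v ρ := by
          funext i
          unfold arg
          by_cases hi : i ∈ A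
          · by_cases hik : ρ i = k
            · rw [if_pos (Finset.mem_filter.2 ⟨hi, hik⟩), if_pos hi, hik]
            · rw [if_neg (fun h : i ∈ A' => hik (Finset.mem_filter.1 h).2), if_pos hi, if_pos hi]
              have h5 : ρ i ∈ S := (Finset.mem_insert.1 (hρ i hi)).resolve_left hik
              rw [hρ']
              change e p (if ρ i ∈ S then ρ i else 0) = _
              rw [if_pos h5]
          · rw [if_neg (fun h : i ∈ A' => hi (Finset.mem_filter.1 h).1), if_neg hi, if_neg hi]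
        rw [h4] at h3
        exact h3
      · refine hS ρ (fun i hi => ?_) hconst
        refine (Finset.mem_insert.1 (hρ i hi)).resolve_left fun h => ?_
        exact hne ⟨i, Finset.mem_filter.2 ⟨hi, h⟩⟩

/-- Continuous multilinear forms are weakly null in fewer than `p` variables. -/
lemma weakNull (hp : p ≠ ∞) (B : ContinuousMultilinearMap ℝ (fun _ : Fin j => ell p) ℝ) :
    ∀ (a : ℕ) (A : Finset (Fin j)), A.card = a → A.Nonempty → (A.card : ℝ) < p.toReal →
      WeakNull B A := by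
  classical
  intro a
  induction a using Nat.strong_induction_on with
  | _ a iha =>
  intro A hAa hA hAr v
  have hr : 0 < p.toReal := by linarith [one_le_r (p := p) hp]
  have ih : ∀ A' : Finset (Fin j), A' ⊂ A → A'.Nonempty → WeakNull B A' := by
    intro A' hA' hne
    have h1 : A'.card < A.card := Finset.card_lt_card hA'
    refine iha A'.card (hAa ▸ h1) A' rfl hne (lt_trans ?_ hAr)
    exact_mod_cast h1
  by_contra hcon
  -- a sign
  obtain ⟨ε, hε, σ, hσ, hfreq⟩ : ∃ ε : ℝ, 0 < ε ∧ ∃ σ : ℝ, |σ| = 1 ∧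
      ∃ᶠ k in atTop, ε ≤ σ * B (arg A v fun _ => k) := by
    rw [Metric.tendsto_nhds] at hcon
    push Not at hcon
    obtain ⟨ε, hε, h⟩ := hcon
    refine ⟨ε, hε, ?_⟩
    have h2 : ∃ᶠ k in atTop, ε ≤ 1 * B (arg A v fun _ => k) ∨ ε ≤ -1 * B (arg A v fun _ => k) := by
      refine h.mono fun k hk => ?_
      rw [Real.dist_eq, sub_zero] at hk
      rcases le_abs.1 hk with h | h
      · left; linarith
      · right; linarith
    rcases Filter.frequently_or_distrib.1 h2 with h | h
    · exact ⟨1, by simp, h⟩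
    · exact ⟨-1, by simp, h⟩
  set K : Set ℕ := {k | ε ≤ σ * B (arg A v fun _ => k)} with hKdef
  have hK : K.Infinite := Nat.frequently_atTop_iff_infinite.1 hfreq
  set C : ℝ := ‖B‖ * ∏ i ∈ Finset.univ.filter (fun i => i ∉ A), ‖v i‖ with hC
  have hC0 : 0 ≤ C := by positivity
  have key : ∀ n : ℕ, 1 ≤ n → (n : ℝ) * ε - 1 ≤ C * (n : ℝ) ^ ((A.card : ℝ) / p.toReal) := by
    intro n hn
    have hn0 : (0 : ℝ) < n := by exact_mod_cast hn
    obtain ⟨S, hSK, hcard, hS⟩ := exists_finset B A hA ih v K hK (1 / (n : ℝ) ^ A.card)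
      (by positivity) n
    -- expand
    set As : Fin j → Finset ℕ := fun i => if i ∈ A then S else {0} with hAs
    have hexp : B (fun i => if i ∈ A then ∑ s ∈ S, e p s else v i) =
        ∑ ρ ∈ Fintype.piFinset As, B (arg A v ρ) := by
      have h1 := B.toMultilinearMap.map_sum_finset (fun i s => if i ∈ A then e p s else v i) As
      have h2 : (fun i => ∑ s ∈ As i, if i ∈ A then e p s else v i) =
          fun i => if i ∈ A then ∑ s ∈ S, e p s else v i := by
        funext i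
        by_cases hi : i ∈ A
        · simp [hAs, hi]
        · simp [hAs, hi]
      rw [h2] at h1
      exact h1
    -- lower bound
    set P := Fintype.piFinset As with hP
    have hPmem : ∀ ρ ∈ P, ∀ i ∈ A, ρ i ∈ S := by
      intro ρ hρ i hi
      have := Fintype.mem_piFinset.1 hρ i
      simpa [hAs, hi] using this
    have hPcard : (P.card : ℝ) = (n : ℝ) ^ A.card := by
      rw [hP, Fintype.card_piFinset]
      have : ∀ i, (As i).card = if i ∈ A then n else 1 := by
        intro i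
        by_cases hi : i ∈ A
        · simp [hAs, hi, hcard]
        · simp [hAs, hi]
      simp only [this, Finset.prod_ite_mem, Finset.univ_inter, Finset.prod_const]
      push_cast
      rfl
    set Q := P.filter fun ρ => ∃ s, ∀ i ∈ A, ρ i = s with hQ
    have hQcard : n ≤ Q.card := by
      rw [← hcard]
      refine Finset.card_le_card_of_injOn (fun s i => if i ∈ A then s else 0) ?_ ?_
      · intro s hs
        refine Finset.mem_coe.2 (Finset.mem_filter.2 ⟨Fintype.mem_piFinset.2 fun i => ?_, s,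
          fun i hi => if_pos hi⟩)
        by_cases hi : i ∈ A
        · simpa [hAs, hi] using hs
        · simp [hAs, hi]
      · intro s _ t _ hst
        obtain ⟨i, hi⟩ := hA
        have := congrFun hst i
        simpa [hi] using this
    have hlow : (n : ℝ) * ε - 1 ≤ σ * B (fun i => if i ∈ A then ∑ s ∈ S, e p s else v i) := by
      rw [hexp, Finset.mul_sum, ← Finset.sum_filter_add_sum_filter_not P
        (fun ρ => ∃ s, ∀ i ∈ A, ρ i = s)]
      have h1 : (n : ℝ) * ε ≤ ∑ ρ ∈ Q, σ * B (arg A v ρ) := by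
        calc (n : ℝ) * ε ≤ (Q.card : ℝ) * ε := by
              refine mul_le_mul_of_nonneg_right ?_ hε.le
              exact_mod_cast hQcard
          _ = ∑ ρ ∈ Q, ε := by rw [Finset.sum_const, nsmul_eq_mul]
          _ ≤ _ := by
              refine Finset.sum_le_sum fun ρ hρ => ?_
              obtain ⟨h2, s, hs⟩ := Finset.mem_filter.1 hρ
              have h3 : arg A v ρ = arg A v fun _ => s := by
                funext i
                unfold arg
                by_cases hi : i ∈ A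
                · rw [if_pos hi, if_pos hi, hs i hi]
                · rw [if_neg hi, if_neg hi]
              rw [h3]
              obtain ⟨i, hi⟩ := hA
              have h4 := hPmem ρ h2 i hi
              rw [hs i hi] at h4
              exact hSK h4
      have h2 : -1 ≤ ∑ ρ ∈ P.filter (fun ρ => ¬ ∃ s, ∀ i ∈ A, ρ i = s), σ * B (arg A v ρ) := by
        calc (-1 : ℝ) = -((P.card : ℝ) * (1 / (n : ℝ) ^ A.card)) := by
              rw [hPcard]; field_simp
          _ ≤ -(((P.filter (fun ρ => ¬ ∃ s, ∀ i ∈ A, ρ i = s)).card : ℝ) *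
              (1 / (n : ℝ) ^ A.card)) := by
              apply neg_le_neg
              refine mul_le_mul_of_nonneg_right ?_ (by positivity)
              exact_mod_cast Finset.card_le_card (Finset.filter_subset _ _)
          _ = ∑ ρ ∈ P.filter (fun ρ => ¬ ∃ s, ∀ i ∈ A, ρ i = s), -(1 / (n : ℝ) ^ A.card) := by
              rw [Finset.sum_const, nsmul_eq_mul]; ring
          _ ≤ _ := by
              refine Finset.sum_le_sum fun ρ hρ => ?_
              obtain ⟨h3, h4⟩ := Finset.mem_filter.1 hρ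
              have h5 := hS ρ (hPmem ρ h3) h4
              have h6 : |σ * B (arg A v ρ)| ≤ 1 / (n : ℝ) ^ A.card := by
                rw [abs_mul, hσ, one_mul]; exact h5
              exact (abs_le.1 h6).1
      linarith
    refine hlow.trans ?_
    calc σ * B (fun i => if i ∈ A then ∑ s ∈ S, e p s else v i)
        ≤ |σ * B (fun i => if i ∈ A then ∑ s ∈ S, e p s else v i)| := le_abs_self _
      _ = |B (fun i => if i ∈ A then ∑ s ∈ S, e p s else v i)| := by rw [abs_mul, hσ, one_mul]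
      _ ≤ ‖B‖ * ∏ i, ‖if i ∈ A then ∑ s ∈ S, e p s else v i‖ := B.le_opNorm _
      _ = C * (n : ℝ) ^ ((A.card : ℝ) / p.toReal) := by
        have h1 : ∀ i, ‖if i ∈ A then ∑ s ∈ S, e p s else v i‖ =
            if i ∈ A then (n : ℝ) ^ (p.toReal)⁻¹ else ‖v i‖ := by
          intro i
          by_cases hi : i ∈ A
          · rw [if_pos hi, if_pos hi, norm_sum_e hp, hcard]
          · rw [if_neg hi, if_neg hi]
        simp only [h1]
        rw [Finset.prod_ite, Finset.prod_const]
        have h2 : (Finset.univ.filter fun i => i ∈ A).card = A.card := by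
          congr 1; ext i; simp
        rw [h2, ← Real.rpow_natCast, ← Real.rpow_mul hn0.le]
        have h3 : (p.toReal)⁻¹ * (A.card : ℝ) = (A.card : ℝ) / p.toReal := by field_simp
        rw [h3, hC]
        ring
  -- the contradiction
  have hexp : 0 < 1 - (A.card : ℝ) / p.toReal := by
    rw [sub_pos, div_lt_one hr]; exact hAr
  have hlim : Tendsto (fun n : ℕ => (n : ℝ) ^ (1 - (A.card : ℝ) / p.toReal)) atTop atTop :=
    (tendsto_rpow_atTop hexp).comp tendsto_natCast_atTop_atTop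
  obtain ⟨n, hn1, hn2⟩ := ((hlim.eventually_gt_atTop ((C + 1) / ε)).and
    (eventually_ge_atTop 1)).exists
  have hn0 : (0 : ℝ) < n := by exact_mod_cast hn2
  have h1 := key n hn2
  set y := (n : ℝ) ^ ((A.card : ℝ) / p.toReal) with hy
  have hy1 : 1 ≤ y := Real.one_le_rpow (by exact_mod_cast hn2) (by positivity)
  have h2 : (n : ℝ) ^ (1 - (A.card : ℝ) / p.toReal) * y = n := by
    rw [hy, ← Real.rpow_add hn0]; simp
  rw [div_lt_iff₀ hε] at hn1
  have h3 : (C + 1) * y < n * ε := by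
    calc (C + 1) * y < ((n : ℝ) ^ (1 - (A.card : ℝ) / p.toReal) * ε) * y :=
          mul_lt_mul_of_pos_right hn1 (by linarith)
      _ = _ := by rw [mul_right_comm, h2]
  nlinarith

/-- The differences `e k - e l` are null for multilinear forms in at most `p` variables, if `p` is
not an even integer. -/
lemma null_diff (hp : p ≠ ∞) (B : ContinuousMultilinearMap ℝ (fun _ : Fin j => ell p) ℝ)
    (hj : 1 ≤ j) (hjr : (j : ℝ) ≤ p.toReal) (hodd : (j : ℝ) = p.toReal → Odd j)
    (U : Ultrafilter ℕ) (hU : (U : Filter ℕ) ≤ atTop) (η : ℝ) (hη : 0 < η) :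
    ∀ᶠ k in (U : Filter ℕ), ∀ᶠ l in (U : Filter ℕ), |B fun _ => e p k - e p l| ≤ η := by
  classical
  -- the pure terms
  obtain ⟨b, hb, hb0⟩ : ∃ b : ℝ, Tendsto (fun k => B fun _ => e p k) (U : Filter ℕ) (𝓝 b) ∧
      b + (-1) ^ j * b = 0 := by
    rcases hjr.lt_or_eq with h | h
    · refine ⟨0, ?_, by simp⟩
      have hne : (Finset.univ : Finset (Fin j)).Nonempty := ⟨⟨0, hj⟩, Finset.mem_univ _⟩
      have h1 := weakNull hp B _ Finset.univ rfl hne (by simpa using h) (fun _ => 0)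
      have h2 : (fun k => B fun _ => e p k) = fun k => B (arg Finset.univ (fun _ => 0)
          fun _ => k) := by
        funext k; congr 1; funext i; simp [arg]
      rw [h2]
      exact h1.mono_left hU
    · have hbdd : ∀ k, (B fun _ => e p k) ∈ Set.Icc (-‖B‖) ‖B‖ := by
        intro k
        have h1 := B.le_opNorm fun _ => e p k
        simp only [norm_e, Finset.prod_const_one, mul_one] at h1
        exact abs_le.1 h1
      obtain ⟨b, _, hb⟩ := isCompact_Icc.ultrafilter_le_nhds (U.map fun k => B fun _ => e p k)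
        (by
          rw [le_principal_iff]
          exact Filter.mem_map.2 (Filter.univ_mem' hbdd))
      refine ⟨b, hb, ?_⟩
      rw [(hodd h).neg_one_pow]
      ring
  have h4 : ∀ᶠ k in (U : Filter ℕ), |(B fun _ => e p k) - b| < η / 4 := by
    have := Metric.tendsto_nhds.1 hb (η / 4) (by linarith)
    simpa [Real.dist_eq] using this
  -- the mixed terms
  have hmix : ∀ k, ∀ᶠ l in (U : Filter ℕ), ∀ s ∈ (Finset.univ : Finset (Finset (Fin j))).filter
      (fun s => s ≠ ∅ ∧ s ≠ Finset.univ),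
        |B (arg sᶜ (fun _ => e p k) fun _ => l)| ≤ η / (2 * 2 ^ j) := by
    intro k
    rw [Filter.eventually_all_finset]
    intro s hs
    obtain ⟨_, hs1, hs2⟩ := Finset.mem_filter.1 hs
    have hne : (sᶜ).Nonempty := by
      rw [Finset.nonempty_iff_ne_empty]
      intro h
      exact hs2 (Finset.compl_eq_empty_iff s |>.1 h)
    have hcard : (sᶜ).card < j := by
      have h5 : 0 < s.card := Finset.card_pos.2 (Finset.nonempty_iff_ne_empty.2 hs1)
      have h6 := Finset.card_compl_add_card s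
      rw [Fintype.card_fin] at h6
      omega
    have h1 := weakNull hp B _ sᶜ rfl hne (lt_of_lt_of_le (by exact_mod_cast hcard) hjr)
      (fun _ => e p k)
    have h3 := (tendsto_order.1 (h1.mono_left hU).abs).2 (η / (2 * 2 ^ j))
      (by rw [abs_zero]; positivity)
    exact h3.mono fun l hl => hl.le
  filter_upwards [h4] with k hk
  filter_upwards [h4, hmix k] with l hl hm
  have hexp : (B fun _ => e p k - e p l) =
      ∑ s : Finset (Fin j), B (s.piecewise (fun _ => e p k) fun _ => -e p l) := by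
    have h1 := B.toMultilinearMap.map_add_univ (fun _ => e p k) (fun _ => -e p l)
    have h2 : (fun _ : Fin j => e p k - e p l) = (fun _ => e p k) + fun _ => -e p l := by
      funext i; simp [sub_eq_add_neg]
    rw [h2]
    exact h1
  have hterm : ∀ s : Finset (Fin j), |B (s.piecewise (fun _ => e p k) fun _ => -e p l)| =
      |B (arg sᶜ (fun _ => e p k) fun _ => l)| := by
    intro s
    have h1 : s.piecewise (fun _ => e p k) (fun _ => -e p l) =
        fun i => (if i ∈ s then (1 : ℝ) else -1) • arg sᶜ (fun _ => e p k) (fun _ => l) i := by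
      funext i
      by_cases hi : i ∈ s
      · simp [hi, arg]
      · simp [hi, arg]
    rw [h1, B.map_smul_univ, smul_eq_mul, abs_mul, Finset.abs_prod]
    have h2 : ∏ i, |if i ∈ s then (1 : ℝ) else -1| = 1 := by
      refine Finset.prod_eq_one fun i _ => ?_
      split_ifs <;> simp
    rw [h2, one_mul]
  have hne : (Finset.univ : Finset (Fin j)) ≠ ∅ := by
    intro h
    have := Finset.mem_univ (⟨0, hj⟩ : Fin j)
    rw [h] at this
    simp at this
  rw [hexp, ← Finset.add_sum_erase _ _ (Finset.mem_univ (Finset.univ : Finset (Fin j))),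
    ← Finset.add_sum_erase _ _ (Finset.mem_erase.2 ⟨hne.symm, Finset.mem_univ
      (∅ : Finset (Fin j))⟩), ← add_assoc]
  have hpure : |B ((Finset.univ : Finset (Fin j)).piecewise (fun _ => e p k) fun _ => -e p l) +
      B ((∅ : Finset (Fin j)).piecewise (fun _ => e p k) fun _ => -e p l)| ≤ η / 2 := by
    have h1 : (Finset.univ : Finset (Fin j)).piecewise (fun _ => e p k) (fun _ => -e p l) =
        fun _ => e p k := by simp
    have h2 : (∅ : Finset (Fin j)).piecewise (fun _ => e p k) (fun _ => -e p l) =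
        fun _ => (-1 : ℝ) • e p l := by simp
    rw [h1, h2, B.map_smul_univ fun _ => (-1 : ℝ)]
    simp only [Finset.prod_const, Finset.card_univ, Fintype.card_fin, smul_eq_mul]
    have h3 : (B fun _ => e p k) + (-1) ^ j * (B fun _ => e p l) =
        ((B fun _ => e p k) - b) + (-1) ^ j * ((B fun _ => e p l) - b) := by
      linear_combination hb0
    rw [h3]
    refine (abs_add_le _ _).trans ?_
    rw [abs_mul, abs_pow, abs_neg, abs_one, one_pow, one_mul]
    linarith
  refine (abs_add_le _ _).trans ?_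
  have hmixed : |∑ s ∈ (Finset.univ.erase Finset.univ).erase ∅,
      B (s.piecewise (fun _ => e p k) fun _ => -e p l)| ≤ η / 2 := by
    refine (Finset.abs_sum_le_sum_abs _ _).trans ?_
    calc ∑ s ∈ (Finset.univ.erase Finset.univ).erase ∅,
          |B (s.piecewise (fun _ => e p k) fun _ => -e p l)|
        ≤ ∑ s ∈ (Finset.univ.erase (Finset.univ : Finset (Fin j))).erase ∅, η / (2 * 2 ^ j) := by
          refine Finset.sum_le_sum fun s hs => ?_
          rw [hterm]
          refine hm s (Finset.mem_filter.2 ⟨Finset.mem_univ _, ?_, ?_⟩)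
          · exact (Finset.mem_erase.1 hs).1
          · exact (Finset.mem_erase.1 (Finset.mem_erase.1 hs).2).1
      _ ≤ ∑ s : Finset (Fin j), η / (2 * 2 ^ j) := by
          refine Finset.sum_le_sum_of_subset_of_nonneg (Finset.subset_univ _) fun _ _ _ => ?_
          positivity
      _ = η / 2 := by
          rw [Finset.sum_const, Finset.card_univ, Fintype.card_finset, Fintype.card_fin,
            nsmul_eq_mul]
          push_cast
          field_simp
  linarith

end weak

section taylor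

open scoped Nat

/-- Taylor's formula with a uniform remainder. -/
lemma taylor {E G : Type} [NormedAddCommGroup E] [NormedSpace ℝ E] [NormedAddCommGroup G]
    [NormedSpace ℝ G] (m : ℕ) (f : E → G) (hf : ContDiff ℝ (m + 1 : ℕ) f) (x : E) :
    ∃ C ρ : ℝ, 0 ≤ C ∧ 0 < ρ ∧ ∀ u : E, ‖u‖ ≤ 2 → ∀ δ : ℝ, 0 ≤ δ → δ ≤ ρ →
      ‖f (x + δ • u) - ∑ j ∈ Finset.range (m + 1),
        ((j ! : ℝ)⁻¹ * δ ^ j) • iteratedFDeriv ℝ j f x (fun _ => u)‖ ≤ C * δ ^ (m + 1) := by
  -- a bound for the derivative of order `m + 1`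
  have hcont : Continuous fun y => ‖iteratedFDeriv ℝ (m + 1) f y‖ :=
    (hf.continuous_iteratedFDeriv le_rfl).norm
  obtain ⟨ρ, hρ, hball⟩ := Metric.eventually_nhds_iff.1
    ((hcont.tendsto x).eventually (gt_mem_nhds (lt_add_one _)))
  set C₀ := ‖iteratedFDeriv ℝ (m + 1) f x‖ + 1 with hC₀
  have hC₀0 : 0 ≤ C₀ := by positivity
  refine ⟨C₀ * 2 ^ (m + 1), ρ / 4, by positivity, by positivity, fun u hu δ hδ hδρ => ?_⟩
  -- the one-dimensional function
  set g : ℝ → G := fun t => f (x + t • u) with hg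
  let L : ℝ →L[ℝ] E := (ContinuousLinearMap.id ℝ ℝ).smulRight u
  have hgd : ContDiff ℝ (m + 1 : ℕ) g := hf.comp (contDiff_const.add (contDiff_id.smul contDiff_const))
  have hderiv : ∀ (k : ℕ) (_ : k ≤ m + 1) (t : ℝ),
      iteratedDeriv k g t = iteratedFDeriv ℝ k f (x + t • u) fun _ => u := by
    intro k hk t
    have h1 : g = (fun z => f (x + z)) ∘ L := by
      funext t; simp [hg, L]
    have hfx : ContDiff ℝ (m + 1 : ℕ) fun z => f (x + z) :=
      hf.comp (contDiff_const.add contDiff_id)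
    rw [iteratedDeriv_eq_iteratedFDeriv, h1, L.iteratedFDeriv_comp_right
      (n := (m + 1 : ℕ)) hfx t (by exact_mod_cast hk), iteratedFDeriv_comp_add_left]
    simp [L, ContinuousMultilinearMap.compContinuousLinearMap_apply]
  have huniq : UniqueDiffOn ℝ (Set.Icc (0 : ℝ) (ρ / 4)) := uniqueDiffOn_Icc (by positivity)
  have hwithin : ∀ (k : ℕ) (_ : k ≤ m + 1), ∀ t ∈ Set.Icc (0 : ℝ) (ρ / 4),
      iteratedDerivWithin k g (Set.Icc 0 (ρ / 4)) t = iteratedFDeriv ℝ k f (x + t • u) fun _ => u := by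
    intro k hk t ht
    rw [iteratedDerivWithin_eq_iteratedDeriv huniq
      ((hgd.of_le (by exact_mod_cast hk)).contDiffAt) ht, hderiv k hk t]
  have hbound : ∀ t ∈ Set.Icc (0 : ℝ) (ρ / 4),
      ‖iteratedDerivWithin (m + 1) g (Set.Icc 0 (ρ / 4)) t‖ ≤ C₀ * 2 ^ (m + 1) := by
    intro t ht
    rw [hwithin (m + 1) le_rfl t ht]
    refine (ContinuousMultilinearMap.le_opNorm _ _).trans ?_
    rw [Finset.prod_const, Finset.card_univ, Fintype.card_fin]
    refine mul_le_mul (hball ?_).le (pow_le_pow_left₀ (norm_nonneg _) hu _) (by positivity) hC₀0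
    rw [dist_eq_norm, add_sub_cancel_left, norm_smul, Real.norm_eq_abs, abs_of_nonneg ht.1]
    calc t * ‖u‖ ≤ ρ / 4 * 2 := mul_le_mul ht.2 hu (norm_nonneg _) (by positivity)
      _ < ρ := by linarith
  have h := taylor_mean_remainder_bound (f := g) (a := 0) (b := ρ / 4) (n := m) (x := δ)
    (by positivity) (by exact_mod_cast hgd.contDiffOn) ⟨hδ, hδρ⟩ hbound
  rw [taylor_within_apply] at h
  simp only [sub_zero] at h
  have h2 : ∑ k ∈ Finset.range (m + 1), ((k ! : ℝ)⁻¹ * δ ^ k) •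
      iteratedDerivWithin k g (Set.Icc 0 (ρ / 4)) 0 = ∑ j ∈ Finset.range (m + 1),
        ((j ! : ℝ)⁻¹ * δ ^ j) • iteratedFDeriv ℝ j f x (fun _ => u) := by
    refine Finset.sum_congr rfl fun k hk => ?_
    rw [hwithin k (Finset.mem_range.1 hk).le 0 ⟨le_rfl, by positivity⟩, zero_smul, add_zero]
  rw [h2] at h
  refine h.trans ?_
  rw [div_le_iff₀ (by positivity)]
  have h3 : (1 : ℝ) ≤ m ! := by exact_mod_cast Nat.succ_le_of_lt (Nat.factorial_pos m)
  have h4 : 0 ≤ C₀ * 2 ^ (m + 1) * δ ^ (m + 1) := by positivity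
  nlinarith

end taylor

section functional

variable {p : ℝ≥0∞} [Fact (1 ≤ p)]

/-- The ultrafilter. -/
noncomputable abbrev U : Ultrafilter ℕ := hyperfilter ℕ

lemma exists_diag_lim (A : ell p →L[ℝ] ell p) :
    ∃ b : ℝ, |b| ≤ ‖A‖ ∧ Tendsto (fun j => A (e p j) j) (U : Filter ℕ) (𝓝 b) := by
  have hbdd : ∀ k, A (e p k) k ∈ Set.Icc (-‖A‖) ‖A‖ := by
    intro k
    have h1 := (abs_apply_le (A (e p k)) k).trans (A.le_opNorm (e p k))
    rw [norm_e, mul_one] at h1
    exact abs_le.1 h1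
  obtain ⟨b, hb1, hb⟩ := isCompact_Icc.ultrafilter_le_nhds (U.map fun k => A (e p k) k)
    (by
      rw [le_principal_iff]
      exact Filter.mem_map.2 (Filter.univ_mem' hbdd))
  exact ⟨b, abs_le.2 hb1, hb⟩

/-- The limit of the diagonal. -/
noncomputable def diag (A : ell p →L[ℝ] ell p) : ℝ := (exists_diag_lim A).choose

lemma abs_diag (A : ell p →L[ℝ] ell p) : |diag A| ≤ ‖A‖ := (exists_diag_lim A).choose_spec.1

lemma tendsto_diag (A : ell p →L[ℝ] ell p) :
    Tendsto (fun j => A (e p j) j) (U : Filter ℕ) (𝓝 (diag A)) :=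
  (exists_diag_lim A).choose_spec.2

variable (p) in
/-- The limit of the diagonal, as a functional. -/
noncomputable def diagCLM : (ell p →L[ℝ] ell p) →L[ℝ] ℝ :=
  LinearMap.mkContinuous
    { toFun := diag
      map_add' := fun A B => tendsto_nhds_unique (tendsto_diag (A + B))
        ((tendsto_diag A).add (tendsto_diag B))
      map_smul' := fun c A => tendsto_nhds_unique (tendsto_diag (c • A))
        ((tendsto_diag A).const_mul c) } 1 fun A => by
    rw [one_mul]; exact abs_diag A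

lemma tendsto_apply_zero (hp : p ≠ ∞) (x : ell p) : Tendsto (fun k => x k) atTop (𝓝 0) := by
  have hr : 0 < p.toReal := by linarith [one_le_r (p := p) hp]
  have h := ((lp.memℓp x).summable hr).tendsto_atTop_zero
  have h2 : Tendsto (fun k => (‖x k‖ ^ p.toReal) ^ (p.toReal)⁻¹) atTop (𝓝 0) := by
    have := h.rpow_const (p := (p.toReal)⁻¹) (Or.inr (by positivity))
    rwa [Real.zero_rpow (by positivity)] at this
  have h3 : (fun k => (‖x k‖ ^ p.toReal) ^ (p.toReal)⁻¹) = fun k => ‖x k‖ := by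
    funext k
    rw [← Real.rpow_mul (norm_nonneg _), mul_inv_cancel₀ hr.ne', Real.rpow_one]
  rw [h3] at h2
  exact tendsto_zero_iff_norm_tendsto_zero.2 h2

/-- Off-diagonal entries are small. -/
lemma off_diag (hp : p ≠ ∞) (A : ell p →L[ℝ] ell p) (η : ℝ) (hη : 0 < η) :
    ∀ᶠ k in (U : Filter ℕ), ∀ᶠ l in (U : Filter ℕ), |A (e p l) k| ≤ η := by
  have hr : 0 < p.toReal := by linarith [one_le_r (p := p) hp]
  by_contra hcon
  rw [← Ultrafilter.eventually_not] at hcon
  have h1 : {k : ℕ | ∀ᶠ l in (U : Filter ℕ), η < |A (e p l) k|}.Infinite := by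
    have h2 : ∀ᶠ k in (U : Filter ℕ), ∀ᶠ l in (U : Filter ℕ), η < |A (e p l) k| := by
      filter_upwards [hcon] with k hk
      rw [← Ultrafilter.eventually_not] at hk
      filter_upwards [hk] with l hl using not_le.1 hl
    have h3 : ∃ᶠ k in atTop, ∀ᶠ l in (U : Filter ℕ), η < |A (e p l) k| :=
      h2.frequently.filter_mono Nat.hyperfilter_le_atTop
    exact Nat.frequently_atTop_iff_infinite.1 h3
  obtain ⟨n, hn⟩ := exists_nat_gt (‖A‖ ^ p.toReal / η ^ p.toReal)
  obtain ⟨S, hS, hcard⟩ := h1.exists_subset_card_eq n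
  have h4 : ∀ᶠ l in (U : Filter ℕ), ∀ k ∈ S, η < |A (e p l) k| := by
    rw [Filter.eventually_all_finset]
    intro k hk
    exact hS hk
  obtain ⟨l, hl⟩ := h4.exists
  have h5 := lp.sum_rpow_le_norm_rpow hr (A (e p l)) S
  have h6 : (n : ℝ) * η ^ p.toReal ≤ ∑ i ∈ S, ‖A (e p l) i‖ ^ p.toReal := by
    rw [← hcard, ← nsmul_eq_mul, ← Finset.sum_const]
    refine Finset.sum_le_sum fun k hk => ?_
    exact Real.rpow_le_rpow hη.le (hl k hk).le hr.le
  have h7 : ‖A (e p l)‖ ^ p.toReal ≤ ‖A‖ ^ p.toReal := by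
    refine Real.rpow_le_rpow (norm_nonneg _) ?_ hr.le
    have := A.le_opNorm (e p l)
    rwa [norm_e, mul_one] at this
  rw [div_lt_iff₀ (by positivity)] at hn
  linarith

/-- The projection on a finite set of coordinates. -/
noncomputable def PF (F : Finset ℕ) (z : ell p) : ell p := ∑ i ∈ F, lp.single p i (z i)

omit [Fact (1 ≤ p)] in
lemma PF_add (F : Finset ℕ) (y z : ell p) : PF F (y + z) = PF F y + PF F z := by
  rw [PF, PF, PF, ← Finset.sum_add_distrib]
  refine Finset.sum_congr rfl fun i _ => ?_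
  rw [← lp.single_add]; rfl

lemma PF_rpow (hp : p ≠ ∞) (F : Finset ℕ) (z : ell p) :
    ‖PF F z‖ ^ p.toReal = ∑ i ∈ F, |z i| ^ p.toReal := by
  have hr : 0 < p.toReal := by linarith [one_le_r (p := p) hp]
  exact lp.norm_sum_single (E := fun _ : ℕ => ℝ) (p := p) hr (fun i => z i) F

lemma PF_le (hp : p ≠ ∞) (F : Finset ℕ) (z : ell p) : ‖PF F z‖ ≤ ‖z‖ := by
  have hr : 0 < p.toReal := by linarith [one_le_r (p := p) hp]
  rw [← Real.rpow_le_rpow_iff (norm_nonneg _) (norm_nonneg _) hr, PF_rpow hp]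
  exact lp.sum_rpow_le_norm_rpow hr z F

lemma PF_le_sum (F : Finset ℕ) (z : ell p) : ‖PF F z‖ ≤ ∑ i ∈ F, |z i| := by
  refine (norm_sum_le _ _).trans (le_of_eq ?_)
  refine Finset.sum_congr rfl fun i _ => ?_
  rw [lp.norm_single p_pos]; rfl

/-- A finite part of the norm. -/
lemma exists_F (hp : p ≠ ∞) (z : ell p) (η : ℝ) (hη : 0 < η) :
    ∃ F : Finset ℕ, ‖z‖ ^ p.toReal - η ≤ ‖PF F z‖ ^ p.toReal := by
  have hr : 0 < p.toReal := by linarith [one_le_r (p := p) hp]
  have h1 : HasSum (fun i => ‖z i‖ ^ p.toReal) (‖z‖ ^ p.toReal) := by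
    rw [lp.norm_rpow_eq_tsum hr]
    exact ((lp.memℓp z).summable hr).hasSum
  obtain ⟨F, hF⟩ := (h1.eventually (lt_mem_nhds
    (show ‖z‖ ^ p.toReal - η < ‖z‖ ^ p.toReal by linarith))).exists
  refine ⟨F, ?_⟩
  rw [PF_rpow hp]
  exact hF.le

lemma rpow_sub_le {r a b t M : ℝ} (hr : 1 ≤ r) (ha : 0 ≤ a) (haM : a ≤ M) (hb : 0 ≤ b)
    (hab : a - t ≤ b) (ht : 0 ≤ t) : a ^ r - r * M ^ (r - 1) * t ≤ b ^ r := by
  have hM : 0 ≤ M := ha.trans haM
  have hK : 0 ≤ r * M ^ (r - 1) * t := by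
    have := Real.rpow_nonneg hM (r - 1)
    positivity
  rcases le_or_gt a b with h | h
  · have := Real.rpow_le_rpow ha h (by linarith : (0 : ℝ) ≤ r)
    linarith
  · have ha0 : 0 < a := lt_of_le_of_lt hb h
    have h1 := one_add_mul_self_le_rpow_one_add (s := b / a - 1)
      (by have : 0 ≤ b / a := by positivity
          linarith) hr
    rw [add_sub_cancel, Real.div_rpow hb ha] at h1
    have hapow : 0 < a ^ r := Real.rpow_pos_of_pos ha0 r
    rw [le_div_iff₀ hapow] at h1
    have h2 : a ^ r = a ^ (r - 1) * a := by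
      rw [← Real.rpow_add_one ha0.ne']; ring_nf
    have h3 : (1 + r * (b / a - 1)) * a ^ r = a ^ r - r * a ^ (r - 1) * (a - b) := by
      rw [h2]
      field_simp
      ring
    rw [h3] at h1
    have h4 : a ^ (r - 1) ≤ M ^ (r - 1) := Real.rpow_le_rpow ha haM (by linarith)
    have h5 : r * a ^ (r - 1) * (a - b) ≤ r * M ^ (r - 1) * t := by
      refine mul_le_mul (mul_le_mul_of_nonneg_left h4 (by linarith)) (by linarith) (by linarith) ?_
      have := Real.rpow_nonneg hM (r - 1)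
      positivity
    linarith

end functional

section steps

variable {p : ℝ≥0∞} [Fact (1 ≤ p)]

/-- A smooth map moves by small amounts along `e k - e l`, up to a small remainder. -/
lemma near_const (hp : p ≠ ∞) (m : ℕ) (hmr : (m : ℝ) ≤ p.toReal)
    (hodd : (m : ℝ) = p.toReal → Odd m) {G : Type} [NormedAddCommGroup G] [NormedSpace ℝ G]
    (f : ell p → G) (hf : ContDiff ℝ (m + 1 : ℕ) f) (x : ell p) :
    ∃ C ρ : ℝ, 0 ≤ C ∧ 0 < ρ ∧ ∀ δ : ℝ, 0 < δ → δ ≤ ρ → ∀ (Φ : Finset ℕ) (φ : ℕ → G →L[ℝ] ℝ)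
      (η : ℝ), 0 < η → ∀ᶠ k in (U : Filter ℕ), ∀ᶠ l in (U : Filter ℕ), ∃ R : G,
        ‖R‖ ≤ C * δ ^ (m + 1) ∧
        ∀ i ∈ Φ, |φ i (f (x + δ • (e p k - e p l)) - f x - R)| ≤ η := by
  obtain ⟨C, ρ, hC, hρ, htay⟩ := taylor m f hf x
  refine ⟨C, ρ, hC, hρ, fun δ hδ hδρ Φ φ η hη => ?_⟩
  set W : ℝ := ∑ j ∈ Finset.range m, (((j + 1).factorial : ℝ)⁻¹ * δ ^ (j + 1)) + 1 with hW
  have hW0 : 0 < W := by
    have : 0 ≤ ∑ j ∈ Finset.range m, (((j + 1).factorial : ℝ)⁻¹ * δ ^ (j + 1)) :=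
      Finset.sum_nonneg fun j _ => by positivity
    linarith
  have h1 : ∀ᶠ k in (U : Filter ℕ), ∀ i ∈ Φ, ∀ j ∈ Finset.range m, ∀ᶠ l in (U : Filter ℕ),
      |φ i (iteratedFDeriv ℝ (j + 1) f x fun _ => e p k - e p l)| ≤ η / W := by
    rw [Filter.eventually_all_finset]
    intro i _
    rw [Filter.eventually_all_finset]
    intro j hj
    have hj' := Finset.mem_range.1 hj
    have hjm : ((j + 1 : ℕ) : ℝ) ≤ m := by exact_mod_cast hj'
    refine null_diff hp ((φ i).compContinuousMultilinearMap (iteratedFDeriv ℝ (j + 1) f x))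
      (by omega) (hjm.trans hmr) (fun h => ?_) U Nat.hyperfilter_le_atTop (η / W) (by positivity)
    have h2 : m = j + 1 := by
      apply le_antisymm _ hj'
      exact_mod_cast hmr.trans h.symm.le
    rw [← h2]
    apply hodd
    rw [h2]
    exact h
  filter_upwards [h1] with k hk
  have h2 : ∀ᶠ l in (U : Filter ℕ), ∀ i ∈ Φ, ∀ j ∈ Finset.range m,
      |φ i (iteratedFDeriv ℝ (j + 1) f x fun _ => e p k - e p l)| ≤ η / W := by
    rw [Filter.eventually_all_finset]
    intro i hi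
    rw [Filter.eventually_all_finset]
    intro j hj
    exact hk i hi j hj
  filter_upwards [h2] with l hl
  refine ⟨f (x + δ • (e p k - e p l)) - ∑ j ∈ Finset.range (m + 1),
        ((j.factorial : ℝ)⁻¹ * δ ^ j) • iteratedFDeriv ℝ j f x (fun _ => e p k - e p l),
    htay _ (norm_sub_e k l) δ hδ.le hδρ, fun i hi => ?_⟩
  have h3 : f (x + δ • (e p k - e p l)) - f x - (f (x + δ • (e p k - e p l)) -
      ∑ j ∈ Finset.range (m + 1), ((j.factorial : ℝ)⁻¹ * δ ^ j) •
        iteratedFDeriv ℝ j f x (fun _ => e p k - e p l)) =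
      ∑ j ∈ Finset.range m, (((j + 1).factorial : ℝ)⁻¹ * δ ^ (j + 1)) •
        iteratedFDeriv ℝ (j + 1) f x (fun _ => e p k - e p l) := by
    rw [Finset.sum_range_succ']
    simp only [Nat.factorial_zero, Nat.cast_one, inv_one, pow_zero, mul_one, one_smul,
      iteratedFDeriv_zero_apply]
    abel
  rw [h3, map_sum]
  refine (Finset.abs_sum_le_sum_abs _ _).trans ?_
  calc ∑ j ∈ Finset.range m, |φ i ((((j + 1).factorial : ℝ)⁻¹ * δ ^ (j + 1)) •
        iteratedFDeriv ℝ (j + 1) f x (fun _ => e p k - e p l))|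
      ≤ ∑ j ∈ Finset.range m, (((j + 1).factorial : ℝ)⁻¹ * δ ^ (j + 1)) * (η / W) := by
        refine Finset.sum_le_sum fun j hj => ?_
        rw [map_smul, smul_eq_mul, abs_mul, abs_of_nonneg (by positivity :
          (0 : ℝ) ≤ ((j + 1).factorial : ℝ)⁻¹ * δ ^ (j + 1))]
        exact mul_le_mul_of_nonneg_left (hl i hi j hj) (by positivity)
    _ = (W - 1) * (η / W) := by rw [← Finset.sum_mul, hW, add_sub_cancel_right]
    _ ≤ W * (η / W) := mul_le_mul_of_nonneg_right (by linarith) (by positivity)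
    _ = η := by field_simp

/-- The `k`-th coordinate after the step is large. -/
lemma coord_big (hp : p ≠ ∞) (f : ell p → ell p) (hf : ContDiff ℝ 2 f) (x : ell p) :
    ∃ C ρ : ℝ, 0 ≤ C ∧ 0 < ρ ∧ ∀ δ : ℝ, 0 < δ → δ ≤ ρ → ∀ η : ℝ, 0 < η →
      ∀ᶠ k in (U : Filter ℕ), ∀ᶠ l in (U : Filter ℕ),
        δ * |diag (fderiv ℝ f x)| - C * δ ^ 2 - η ≤ |f (x + δ • (e p k - e p l)) k| := by
  obtain ⟨C, ρ, hC, hρ, htay⟩ := taylor 1 f (by exact_mod_cast hf) x
  refine ⟨C, ρ, hC, hρ, fun δ hδ hδρ η hη => ?_⟩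
  set A := fderiv ℝ f x with hA
  have h1 : ∀ᶠ k in (U : Filter ℕ), |f x k| ≤ η / 3 := by
    have := (tendsto_order.1 (tendsto_apply_zero hp (f x)).abs).2 (η / 3)
      (by rw [abs_zero]; positivity)
    exact (this.mono fun k hk => hk.le).filter_mono Nat.hyperfilter_le_atTop
  have h2 : ∀ᶠ k in (U : Filter ℕ), |A (e p k) k - diag A| ≤ η / (3 * δ) := by
    have := Metric.tendsto_nhds.1 (tendsto_diag A) (η / (3 * δ)) (by positivity)
    filter_upwards [this] with k hk
    rw [Real.dist_eq] at hk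
    exact hk.le
  have h3 := off_diag hp A (η / (3 * δ)) (by positivity)
  filter_upwards [h1, h2, h3] with k hk1 hk2 hk3
  filter_upwards [hk3] with l hl
  have h4 := htay (e p k - e p l) (norm_sub_e k l) δ hδ.le hδρ
  rw [Finset.sum_range_succ, Finset.sum_range_one] at h4
  simp only [Nat.factorial_zero, Nat.cast_one, inv_one, pow_zero, mul_one, one_smul,
    iteratedFDeriv_zero_apply, Nat.factorial_one, pow_one, one_mul, iteratedFDeriv_one_apply,
    ← hA, map_sub] at h4
  set z := f (x + δ • (e p k - e p l)) - (f x + δ • (A (e p k) - A (e p l))) with hz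
  have h5 : |z k| ≤ C * δ ^ 2 := (abs_apply_le z k).trans h4
  have h6 : f (x + δ • (e p k - e p l)) k = δ * diag A + (f x k + δ * (A (e p k) k - diag A) -
      δ * A (e p l) k + z k) := by
    have : f (x + δ • (e p k - e p l)) k = (f x + δ • (A (e p k) - A (e p l)) + z) k := by
      rw [hz]; simp
    rw [this]
    change f x k + δ * (A (e p k) k - A (e p l) k) + z k = _
    ring
  have h7 : |f x k + δ * (A (e p k) k - diag A) - δ * A (e p l) k + z k| ≤ η + C * δ ^ 2 := by
    refine (abs_add_le _ _).trans ?_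
    refine add_le_add ?_ h5
    refine (abs_sub _ _).trans ?_
    have h8 : |f x k + δ * (A (e p k) k - diag A)| ≤ η / 3 + η / 3 := by
      refine (abs_add_le _ _).trans (add_le_add hk1 ?_)
      rw [abs_mul, abs_of_pos hδ]
      calc δ * |A (e p k) k - diag A| ≤ δ * (η / (3 * δ)) := mul_le_mul_of_nonneg_left hk2 hδ.le
        _ = η / 3 := by field_simp
    have h9 : |δ * A (e p l) k| ≤ η / 3 := by
      rw [abs_mul, abs_of_pos hδ]
      calc δ * |A (e p l) k| ≤ δ * (η / (3 * δ)) := mul_le_mul_of_nonneg_left hl hδ.le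
        _ = η / 3 := by field_simp
    linarith
  rw [h6]
  set w := f x k + δ * (A (e p k) k - diag A) - δ * A (e p l) k + z k with hw
  have h10 := abs_sub_abs_le_abs_sub (δ * diag A) (-w)
  rw [sub_neg_eq_add, abs_neg, abs_mul, abs_of_pos hδ] at h10
  linarith

lemma small_pow (r : ℝ) (m : ℕ) (hmr' : r < m + 1) (C ζ : ℝ) (hζ : 0 < ζ) :
    ∀ᶠ δ in 𝓝[>] (0 : ℝ), C * δ ^ (m + 1) ≤ ζ * δ ^ r := by
  have h1 : Tendsto (fun δ : ℝ => C * δ ^ ((m : ℝ) + 1 - r)) (𝓝[>] 0) (𝓝 (C * 0)) := by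
    refine Tendsto.const_mul C ?_
    have h2 := (Real.continuousAt_rpow_const (0 : ℝ) ((m : ℝ) + 1 - r)
      (Or.inr (by linarith))).tendsto
    rw [Real.zero_rpow (by linarith)] at h2
    exact h2.mono_left nhdsWithin_le_nhds
  rw [mul_zero] at h1
  filter_upwards [(tendsto_order.1 h1).2 ζ hζ, self_mem_nhdsWithin] with δ hδ hδ0
  have hδ0' : (0 : ℝ) < δ := hδ0
  have h3 : δ ^ (m + 1) = δ ^ ((m : ℝ) + 1 - r) * δ ^ r := by
    rw [← Real.rpow_add hδ0', sub_add_cancel]
    norm_cast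
  rw [h3, ← mul_assoc]
  exact mul_le_mul_of_nonneg_right hδ.le (Real.rpow_nonneg hδ0'.le r)

/-- At every point where the limit of the diagonal is at least `1/2` there is a good step, which is
also good at nearby points. -/
lemma good_step (hp : p ≠ ∞) (m : ℕ) (hm1 : 1 ≤ m) (hmr : (m : ℝ) ≤ p.toReal)
    (hmr' : p.toReal < m + 1) (hodd : (m : ℝ) = p.toReal → Odd m)
    (H : ell p → ell p) (hH : ContDiff ℝ (m + 2 : ℕ) H) (M : ℝ) (hM : ∀ x, ‖H x‖ ≤ M)
    (x : ell p) (hx : 1 / 2 ≤ diag (fderiv ℝ H x)) (ε : ℝ) (hε : 0 < ε) :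
    ∃ δ τ : ℝ, 0 < δ ∧ 0 < τ ∧ ∀ x' : ell p, dist x' x < τ →
      ∀ᶠ k in (U : Filter ℕ), ∀ᶠ l in (U : Filter ℕ),
        ‖H x'‖ ^ p.toReal + 1 / (2 * 4 ^ p.toReal) * δ ^ p.toReal ≤
          ‖H (x' + δ • (e p k - e p l))‖ ^ p.toReal ∧
        |diag (fderiv ℝ H (x' + δ • (e p k - e p l))) - diag (fderiv ℝ H x')| ≤
          ε * (1 / (2 * 4 ^ p.toReal) * δ ^ p.toReal) := by
  set r := p.toReal with hr
  have hr1 : 1 ≤ r := one_le_r hp
  have hr0 : 0 < r := by linarith
  set c : ℝ := 1 / (2 * 4 ^ r) with hc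
  have hc0 : 0 < c := by positivity
  have hM0 : 0 ≤ M := (norm_nonneg _).trans (hM 0)
  set K : ℝ := r * M ^ (r - 1) with hK
  have hK0 : 0 ≤ K := by
    have := Real.rpow_nonneg hM0 (r - 1)
    positivity
  -- the diagonal
  set D : ell p → ℝ := fun y => diag (fderiv ℝ H y) with hD
  have hDc : ContDiff ℝ (m + 1 : ℕ) D :=
    (diagCLM p).contDiff.comp (hH.fderiv_right (by norm_cast))
  obtain ⟨C₁, ρ₁, hC₁, hρ₁, h₁⟩ := near_const hp m hmr hodd H
    (hH.of_le (by norm_cast; omega)) x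
  obtain ⟨C₂, ρ₂, hC₂, hρ₂, h₂⟩ := coord_big hp H (hH.of_le (by norm_cast; omega)) x
  obtain ⟨C₃, ρ₃, hC₃, hρ₃, h₃⟩ := near_const hp m hmr hodd D hDc x
  -- Lipschitz bounds
  obtain ⟨L₁, t₁, ht₁, hL₁⟩ := (hH.of_le (m := 1) (by norm_cast; omega)).contDiffAt
    (x := x) |>.exists_lipschitzOnWith
  obtain ⟨L₂, t₂, ht₂, hL₂⟩ := (hDc.of_le (m := 1) (by norm_cast; omega)).contDiffAt
    (x := x) |>.exists_lipschitzOnWith
  obtain ⟨ρ₄, hρ₄, hball⟩ := Metric.mem_nhds_iff.1 (Filter.inter_mem ht₁ ht₂)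
  -- the choice of `δ`
  have hδex : ∀ᶠ δ in 𝓝[>] (0 : ℝ), 0 < δ ∧ δ ≤ ρ₁ ∧ δ ≤ ρ₂ ∧ δ ≤ ρ₃ ∧ 4 * δ < ρ₄ ∧
      C₂ * δ ≤ 1 / 8 ∧ (K * C₁) * δ ^ (m + 1) ≤ c / 8 * δ ^ r ∧
      C₃ * δ ^ (m + 1) ≤ ε * c / 4 * δ ^ r := by
    have a1 : ∀ ρ : ℝ, 0 < ρ → ∀ᶠ δ in 𝓝[>] (0 : ℝ), δ ≤ ρ := fun ρ hρ =>
      (Filter.Eventually.filter_mono nhdsWithin_le_nhds (ge_mem_nhds hρ))
    have a2 : ∀ᶠ δ in 𝓝[>] (0 : ℝ), 4 * δ < ρ₄ := by
      have : Tendsto (fun δ : ℝ => 4 * δ) (𝓝 0) (𝓝 (4 * 0)) := (continuous_const.mul continuous_id).tendsto 0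
      rw [mul_zero] at this
      exact ((tendsto_order.1 this).2 ρ₄ hρ₄).filter_mono nhdsWithin_le_nhds
    have a3 : ∀ᶠ δ in 𝓝[>] (0 : ℝ), C₂ * δ ≤ 1 / 8 := by
      have : Tendsto (fun δ : ℝ => C₂ * δ) (𝓝 0) (𝓝 (C₂ * 0)) := (continuous_const.mul continuous_id).tendsto 0
      rw [mul_zero] at this
      exact (((tendsto_order.1 this).2 (1 / 8) (by norm_num)).filter_mono
        nhdsWithin_le_nhds).mono fun δ h => h.le
    filter_upwards [self_mem_nhdsWithin, a1 ρ₁ hρ₁, a1 ρ₂ hρ₂, a1 ρ₃ hρ₃, a2, a3,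
      small_pow r m hmr' (K * C₁) (c / 8) (by positivity),
      small_pow r m hmr' C₃ (ε * c / 4) (by positivity)] with δ b0 b1 b2 b3 b4 b5 b6 b7
    exact ⟨b0, b1, b2, b3, b4, b5, b6, b7⟩
  obtain ⟨δ, hδ0, hδ1, hδ2, hδ3, hδ4, hδ5, hδ6, hδ7⟩ := hδex.exists
  set g : ℝ := c * δ ^ r with hg
  have hδr : 0 < δ ^ r := Real.rpow_pos_of_pos hδ0 r
  have hg0 : 0 < g := by positivity
  have hgr : (δ / 4) ^ r = 2 * g := by
    rw [Real.div_rpow hδ0.le (by norm_num), hg, hc]
    field_simp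
  -- the estimate at `x`
  have hatx : ∀ᶠ k in (U : Filter ℕ), ∀ᶠ l in (U : Filter ℕ),
      ‖H x‖ ^ r + 3 / 2 * g ≤ ‖H (x + δ • (e p k - e p l))‖ ^ r ∧
      |D (x + δ • (e p k - e p l)) - D x| ≤ ε * g / 2 := by
    obtain ⟨F, hF⟩ := exists_F hp (H x) (g / 8) (by positivity)
    set η₁ : ℝ := g / (8 * (K + 1) * (F.card + 1)) with hη₁
    have hη₁0 : 0 < η₁ := by positivity
    have b1 := h₁ δ hδ0 hδ1 F (co p) η₁ hη₁0
    have b2 := h₂ δ hδ0 hδ2 (δ / 8) (by positivity)
    have b3 := h₃ δ hδ0 hδ3 {0} (fun _ => ContinuousLinearMap.id ℝ ℝ) (ε * g / 4) (by positivity)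
    have b4 : ∀ᶠ k in (U : Filter ℕ), k ∉ F := by
      have : ∀ᶠ k in atTop, k ∉ F := by
        filter_upwards [eventually_gt_atTop (F.sup id)] with k hk h
        exact absurd (Finset.le_sup (f := id) h) (not_le.2 hk)
      exact this.filter_mono Nat.hyperfilter_le_atTop
    filter_upwards [b1, b2, b3, b4] with k hk1 hk2 hk3 hk4
    filter_upwards [hk1, hk2, hk3] with l hl1 hl2 hl3
    set y := x + δ • (e p k - e p l) with hy
    constructor
    · obtain ⟨R, hR, hRF⟩ := hl1
      -- the coordinates in `F`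
      have c1 : ‖PF F (H y - H x - R)‖ ≤ F.card * η₁ := by
        refine (PF_le_sum F _).trans ?_
        rw [← nsmul_eq_mul, ← Finset.sum_const]
        exact Finset.sum_le_sum fun i hi => hRF i hi
      have c2 : ‖PF F R‖ ≤ C₁ * δ ^ (m + 1) := (PF_le hp F R).trans hR
      have c3 : PF F (H x) = PF F (H y) + PF F (-(H y - H x - R)) + PF F (-R) := by
        rw [← PF_add, ← PF_add]
        congr 1
        abel
      have hneg : ∀ z : ell p, ‖PF F (-z)‖ = ‖PF F z‖ := by
        intro z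
        have h0 : PF F z + PF F (-z) = 0 := by
          rw [← PF_add, add_neg_cancel, PF]
          refine Finset.sum_eq_zero fun i _ => ?_
          change lp.single (E := fun _ : ℕ => ℝ) p i 0 = 0
          exact lp.single_zero p i
        rw [← norm_neg (PF F z), neg_eq_of_add_eq_zero_right h0]
      have c4 : ‖PF F (H x)‖ - (F.card * η₁ + C₁ * δ ^ (m + 1)) ≤ ‖PF F (H y)‖ := by
        have h0 : ‖PF F (H x)‖ ≤ ‖PF F (H y)‖ + ‖PF F (-(H y - H x - R))‖ + ‖PF F (-R)‖ := by
          rw [c3]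
          exact (norm_add_le _ _).trans (add_le_add (norm_add_le _ _) le_rfl)
        rw [hneg, hneg] at h0
        linarith
      have c5 := rpow_sub_le hr1 (norm_nonneg (PF F (H x))) ((PF_le hp F _).trans (hM x))
        (norm_nonneg (PF F (H y))) c4 (by positivity)
      rw [← hK] at c5
      have c6 : K * (F.card * η₁ + C₁ * δ ^ (m + 1)) ≤ g / 8 + g / 8 := by
        have e1 : K * (F.card * η₁) ≤ g / 8 := by
          have : (K + 1) * ((F.card + 1) * η₁) = g / 8 := by
            rw [hη₁]; field_simp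
          rw [← this]
          refine mul_le_mul (by linarith) (mul_le_mul_of_nonneg_right (by linarith) hη₁0.le)
            (by positivity) (by positivity)
        have e2 : K * (C₁ * δ ^ (m + 1)) ≤ g / 8 := by
          rw [← mul_assoc]
          refine hδ6.trans (le_of_eq ?_)
          rw [hg]; ring
        rw [mul_add]
        linarith
      -- the `k`-th coordinate
      have c7 : δ / 4 ≤ |H y k| := by
        refine le_trans ?_ hl2
        have e1 : 1 / 2 ≤ |diag (fderiv ℝ H x)| := hx.trans (le_abs_self _)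
        have e2 : δ * (1 / 2) ≤ δ * |diag (fderiv ℝ H x)| := mul_le_mul_of_nonneg_left e1 hδ0.le
        have e3 : C₂ * δ ^ 2 ≤ 1 / 8 * δ := by
          rw [pow_two, ← mul_assoc]
          exact mul_le_mul_of_nonneg_right hδ5 hδ0.le
        linarith
      have c8 : 2 * g ≤ |H y k| ^ r := by
        rw [← hgr]
        exact Real.rpow_le_rpow (by positivity) c7 hr0.le
      have c9 : ‖PF F (H y)‖ ^ r + |H y k| ^ r ≤ ‖H y‖ ^ r := by
        have := lp.sum_rpow_le_norm_rpow (p := p) hr0 (H y) (insert k F)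
        rw [Finset.sum_insert hk4] at this
        rw [PF_rpow hp, add_comm]
        exact this
      linarith
    · obtain ⟨R, hR, hRF⟩ := hl3
      have c1 := hRF 0 (Finset.mem_singleton_self 0)
      change |D y - D x - R| ≤ ε * g / 4 at c1
      have c2 : |R| ≤ ε * g / 4 := by
        refine hR.trans (hδ7.trans (le_of_eq ?_))
        rw [hg]; ring
      have c3 : D y - D x = (D y - D x - R) + R := by ring
      rw [c3]
      exact (abs_add_le _ _).trans (by linarith)
  -- nearby points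
  set τ : ℝ := min (ρ₄ / 2) (min (g / (4 * (K + 1) * (L₁ + 1))) (ε * g / (4 * (L₂ + 1)))) with hτ
  have hτ0 : 0 < τ := by positivity
  refine ⟨δ, τ, hδ0, hτ0, fun x' hx' => ?_⟩
  have hτ1 : dist x' x < ρ₄ / 2 := hx'.trans_le (min_le_left _ _)
  have hτ2 : dist x' x ≤ g / (4 * (K + 1) * (L₁ + 1)) :=
    (hx'.trans_le ((min_le_right _ _).trans (min_le_left _ _))).le
  have hτ3 : dist x' x ≤ ε * g / (4 * (L₂ + 1)) :=
    (hx'.trans_le ((min_le_right _ _).trans (min_le_right _ _))).le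
  have hL1 : K * (L₁ * dist x' x) ≤ g / 4 := by
    have h0 : (K + 1) * ((L₁ + 1) * (g / (4 * (K + 1) * (L₁ + 1)))) = g / 4 := by field_simp
    rw [← h0]
    refine mul_le_mul (by linarith) (mul_le_mul (by linarith) hτ2 dist_nonneg (by positivity))
      (by positivity) (by positivity)
  have hL2 : L₂ * dist x' x ≤ ε * g / 4 := by
    have h0 : ((L₂ : ℝ) + 1) * (ε * g / (4 * (L₂ + 1))) = ε * g / 4 := by field_simp
    rw [← h0]
    exact mul_le_mul (by linarith) hτ3 dist_nonneg (by positivity)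
  filter_upwards [hatx] with k hk
  filter_upwards [hk] with l hl
  obtain ⟨hl1, hl2⟩ := hl
  have hmem : ∀ z : ell p, dist z x < ρ₄ → z ∈ t₁ ∧ z ∈ t₂ := fun z hz => hball hz
  have hu : ‖δ • (e p k - e p l)‖ ≤ 2 * δ := by
    rw [norm_smul, Real.norm_eq_abs, abs_of_pos hδ0, mul_comm]
    exact mul_le_mul_of_nonneg_right (norm_sub_e k l) hδ0.le
  have hx1 := hmem x (by rw [dist_self]; exact hρ₄)
  have hx2 := hmem x' (by linarith)
  have hx3 := hmem (x + δ • (e p k - e p l)) (by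
    rw [dist_eq_norm, add_sub_cancel_left]; linarith)
  have hx4 := hmem (x' + δ • (e p k - e p l)) (by
    have h0 := dist_triangle (x' + δ • (e p k - e p l)) x' x
    have h00 : dist (x' + δ • (e p k - e p l)) x' = ‖δ • (e p k - e p l)‖ := by
      rw [dist_eq_norm, add_sub_cancel_left]
    linarith)
  have hdist : dist (x + δ • (e p k - e p l)) (x' + δ • (e p k - e p l)) = dist x' x := by
    rw [dist_add_right, dist_comm]
  constructor
  · -- the norms
    have d1 := hL₁.dist_le_mul _ hx3.1 _ hx4.1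
    rw [hdist, dist_eq_norm] at d1
    have d2 := hL₁.dist_le_mul _ hx2.1 _ hx1.1
    rw [dist_eq_norm] at d2
    have d3 := rpow_sub_le hr1 (norm_nonneg (H (x + δ • (e p k - e p l)))) (hM _)
      (norm_nonneg (H (x' + δ • (e p k - e p l))))
      (show _ - L₁ * dist x' x ≤ _ by
        have := norm_sub_norm_le (H (x + δ • (e p k - e p l))) (H (x' + δ • (e p k - e p l)))
        linarith) (by positivity)
    have d4 := rpow_sub_le hr1 (norm_nonneg (H x')) (hM _) (norm_nonneg (H x))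
      (show _ - L₁ * dist x' x ≤ _ by
        have := norm_sub_norm_le (H x') (H x)
        linarith) (by positivity)
    rw [← hK] at d3 d4
    linarith
  · have d1 := hL₂.dist_le_mul _ hx4.2 _ hx3.2
    rw [dist_comm (x' + _), hdist, Real.dist_eq] at d1
    have d2 := hL₂.dist_le_mul _ hx1.2 _ hx2.2
    rw [dist_comm x x', Real.dist_eq] at d2
    have d3 : D (x' + δ • (e p k - e p l)) - D x' =
        (D (x' + δ • (e p k - e p l)) - D (x + δ • (e p k - e p l))) +
        (D (x + δ • (e p k - e p l)) - D x) + (D x - D x') := by ring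
    change |D (x' + δ • (e p k - e p l)) - D x'| ≤ ε * g
    rw [d3]
    refine (abs_add_le _ _).trans ?_
    have d4 := abs_add_le (D (x' + δ • (e p k - e p l)) - D (x + δ • (e p k - e p l)))
      (D (x + δ • (e p k - e p l)) - D x)
    linarith

end steps

section final

/-- A greedy choice. -/
lemma greedy {Y : Type*} (R : Y → Y → Prop) (hrefl : ∀ x, R x x)
    (htrans : ∀ x y z, R x y → R y z → R x z) (φ : Y → ℝ) (M : ℝ) (hM : ∀ x, φ x ≤ M) (x₀ : Y) :
    ∃ u : ℕ → Y, u 0 = x₀ ∧ (∀ n m, n ≤ m → R (u n) (u m)) ∧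
      ∀ n y, R (u n) y → φ y ≤ φ (u (n + 1)) + 1 / ((n : ℝ) + 1) := by
  have hsup : ∀ (n : ℕ) (x : Y), ∃ y, R x y ∧ ∀ z, R x z → φ z ≤ φ y + 1 / ((n : ℝ) + 1) := by
    intro n x
    have hb : BddAbove (φ '' {y | R x y}) := ⟨M, by rintro _ ⟨y, _, rfl⟩; exact hM y⟩
    have hne : (φ '' {y | R x y}).Nonempty := ⟨φ x, x, hrefl x, rfl⟩
    obtain ⟨_, ⟨y, hy, rfl⟩, hy2⟩ := exists_lt_of_lt_csSup hne
      (show sSup (φ '' {y | R x y}) - 1 / ((n : ℝ) + 1) < sSup (φ '' {y | R x y}) by
        have : (0 : ℝ) < 1 / ((n : ℝ) + 1) := by positivity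
        linarith)
    refine ⟨y, hy, fun z hz => ?_⟩
    have : φ z ≤ sSup (φ '' {y | R x y}) := le_csSup hb ⟨z, hz, rfl⟩
    linarith
  choose f hf1 hf2 using hsup
  let u : ℕ → Y := fun n => Nat.rec x₀ (fun n x => f n x) n
  have hu : ∀ n, u (n + 1) = f n (u n) := fun n => rfl
  refine ⟨u, rfl, fun n m hnm => ?_, fun n y hy => ?_⟩
  · induction m, hnm using Nat.le_induction with
    | base => exact hrefl _
    | succ m _ ih => exact htrans _ _ _ ih (by rw [hu]; exact hf1 m (u m))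
  · rw [hu]
    exact hf2 n (u n) y hy

variable {p : ℝ≥0∞} [Fact (1 ≤ p)]

lemma norm_diff_rpow (hp : p ≠ ∞) (k l : ℕ) (hkl : k ≠ l) (δ : ℝ) (hδ : 0 < δ) :
    ‖δ • (e p k - e p l)‖ ^ p.toReal = 2 * δ ^ p.toReal := by
  have hr : 0 < p.toReal := by linarith [one_le_r (p := p) hp]
  have h1 : δ • (e p k - e p l) = ∑ i ∈ {k, l}, lp.single (E := fun _ : ℕ => ℝ) p i
      ((if i = k then δ else -δ : ℝ)) := by
    rw [Finset.sum_pair hkl, if_pos rfl, if_neg hkl.symm, lp.single_neg, smul_sub, sub_eq_add_neg]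
    have h2 : ∀ i, δ • e p i = lp.single (E := fun _ : ℕ => ℝ) p i δ := by
      intro i
      rw [e, ← lp.single_smul]
      simp
    rw [h2, h2]
  rw [h1, lp.norm_sum_single (E := fun _ : ℕ => ℝ) (p := p) hr (fun i => if i = k then δ else -δ)
    {k, l}, Finset.sum_pair hkl, if_pos rfl, if_neg hkl.symm, norm_neg, Real.norm_eq_abs,
    abs_of_pos hδ]
  ring

/-- Disjoint increments. -/
lemma norm_add_rpow (hp : p ≠ ∞) (y z : ell p) (h : ∀ i, y i = 0 ∨ z i = 0) :
    ‖y + z‖ ^ p.toReal = ‖y‖ ^ p.toReal + ‖z‖ ^ p.toReal := by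
  have hr : 0 < p.toReal := by linarith [one_le_r (p := p) hp]
  rw [lp.norm_rpow_eq_tsum hr, lp.norm_rpow_eq_tsum hr, lp.norm_rpow_eq_tsum hr,
    ← Summable.tsum_add ((lp.memℓp y).summable hr) ((lp.memℓp z).summable hr)]
  refine tsum_congr fun i => ?_
  change |y i + z i| ^ p.toReal = |y i| ^ p.toReal + |z i| ^ p.toReal
  rcases h i with h | h
  · rw [h, zero_add, abs_zero, Real.zero_rpow hr.ne', zero_add]
  · rw [h, add_zero, abs_zero, Real.zero_rpow hr.ne', add_zero]

/-- The main result. -/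
theorem main (hp : p ≠ ∞) (m : ℕ) (hm1 : 1 ≤ m) (hmr : (m : ℝ) ≤ p.toReal)
    (hmr' : p.toReal < m + 1) (hodd : (m : ℝ) = p.toReal → Odd m)
    (H : ell p → ell p) (hH : ContDiff ℝ (m + 2 : ℕ) H) (M : ℝ) (hM : ∀ x, ‖H x‖ ≤ M)
    (h0 : ∀ᶠ x in 𝓝 (0 : ell p), H x = x) : False := by
  set r := p.toReal with hr
  have hr1 : 1 ≤ r := one_le_r hp
  have hr0 : 0 < r := by linarith
  set c : ℝ := 1 / (2 * 4 ^ r) with hc
  have hc0 : 0 < c := by positivity
  have hM0 : 0 ≤ M := (norm_nonneg _).trans (hM 0)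
  set D : ell p → ℝ := fun y => diag (fderiv ℝ H y) with hD
  have hDc : Continuous D := by
    have h1 : ContDiff ℝ (m + 1 : ℕ) D :=
      (diagCLM p).contDiff.comp (hH.fderiv_right (by norm_cast))
    exact h1.continuous
  set φ : ell p → ℝ := fun y => ‖H y‖ ^ r with hφ
  have hφ0 : ∀ y, 0 ≤ φ y := fun y => Real.rpow_nonneg (norm_nonneg _) r
  have hφM : ∀ y, φ y ≤ M ^ r := fun y => Real.rpow_le_rpow (norm_nonneg _) (hM y) hr0.le
  set ε : ℝ := 1 / (2 * (M ^ r + 1)) with hε
  have hMr : 0 ≤ M ^ r := Real.rpow_nonneg hM0 r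
  have hε0 : 0 < ε := by positivity
  -- the derivative at `0`
  have hD0 : D 0 = 1 := by
    have h1 : fderiv ℝ H 0 = ContinuousLinearMap.id ℝ (ell p) := by
      have h2 : H =ᶠ[𝓝 0] id := h0
      rw [h2.fderiv_eq, fderiv_id]
    have h3 : Tendsto (fun j => (ContinuousLinearMap.id ℝ (ell p)) (e p j) j) (U : Filter ℕ)
        (𝓝 1) := by
      refine tendsto_const_nhds.congr fun j => ?_
      exact (e_self j).symm
    change diag (fderiv ℝ H 0) = 1
    rw [h1]
    exact tendsto_nhds_unique (tendsto_diag _) h3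
  -- the relation
  let Y : Type := {x : ell p // {i | x i ≠ 0}.Finite}
  let R : Y → Y → Prop := fun x y => (∀ i, (x : ell p) i ≠ 0 → (y : ell p) i = (x : ell p) i) ∧
    c / 2 * ‖(y : ell p) - x‖ ^ r ≤ φ y - φ x ∧ D x - ε * (φ y - φ x) ≤ D y
  have hrefl : ∀ x, R x x := by
    intro x
    refine ⟨fun _ _ => rfl, ?_, ?_⟩
    · rw [sub_self, norm_zero, Real.zero_rpow hr0.ne', mul_zero, sub_self]
    · rw [sub_self, mul_zero, sub_zero]
  have htrans : ∀ x y z, R x y → R y z → R x z := by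
    rintro x y z ⟨a1, a2, a3⟩ ⟨b1, b2, b3⟩
    refine ⟨fun i hi => ?_, ?_, ?_⟩
    · have h1 := a1 i hi
      rw [b1 i (by rw [h1]; exact hi), h1]
    · have h1 : (z : ell p) - x = ((z : ell p) - y) + ((y : ell p) - x) := by abel
      rw [h1, norm_add_rpow hp]
      · change c / 2 * (‖(z : ell p) - y‖ ^ r + ‖(y : ell p) - x‖ ^ r) ≤ _
        linarith
      · intro i
        by_cases hi : (y : ell p) i = (x : ell p) i
        · right
          change (y : ell p) i - (x : ell p) i = 0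
          rw [hi, sub_self]
        · left
          have h2 : (x : ell p) i = 0 := by
            by_contra h
            exact hi (a1 i h)
          have h3 : (y : ell p) i ≠ 0 := by rw [h2] at hi; exact hi
          change (z : ell p) i - (y : ell p) i = 0
          rw [b1 i h3, sub_self]
    · linarith
  let x₀ : Y := ⟨0, by simp⟩
  obtain ⟨u, hu0, huR, hugreedy⟩ := greedy R hrefl htrans (fun x => φ x) (M ^ r)
    (fun x => hφM x) x₀
  have hmono : Monotone fun n => φ (u n) := by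
    intro n m hnm
    have h1 := (huR n m hnm).2.1
    have h2 : 0 ≤ c / 2 * ‖(u m : ell p) - u n‖ ^ r := by
      have := Real.rpow_nonneg (norm_nonneg ((u m : ell p) - u n)) r
      positivity
    change φ (u n) ≤ φ (u m)
    linarith
  have hbdd : BddAbove (Set.range fun n => φ (u n)) := ⟨M ^ r, by rintro _ ⟨n, rfl⟩; exact hφM _⟩
  set L := ⨆ n, φ (u n) with hL
  have hlim : Tendsto (fun n => φ (u n)) atTop (𝓝 L) := tendsto_atTop_ciSup hmono hbdd
  have hleL : ∀ n, φ (u n) ≤ L := fun n => le_ciSup hbdd n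
  -- the sequence is Cauchy
  have hcau : CauchySeq fun n => (u n : ell p) := by
    refine cauchySeq_of_le_tendsto_0' (fun n => (2 / c * (L - φ (u n))) ^ r⁻¹) (fun n m hnm => ?_) ?_
    · have h1 := (huR n m hnm).2.1
      have h2 : ‖(u m : ell p) - u n‖ ^ r ≤ 2 / c * (L - φ (u n)) := by
        have h3 : ‖(u m : ell p) - u n‖ ^ r = 2 / c * (c / 2 * ‖(u m : ell p) - u n‖ ^ r) := by
          field_simp
        rw [h3]
        refine mul_le_mul_of_nonneg_left ?_ (by positivity)
        linarith [hleL m]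
      rw [dist_comm, dist_eq_norm]
      have h4 : ‖(u m : ell p) - u n‖ = (‖(u m : ell p) - u n‖ ^ r) ^ r⁻¹ := by
        rw [← Real.rpow_mul (norm_nonneg _), mul_inv_cancel₀ hr0.ne', Real.rpow_one]
      rw [h4]
      exact Real.rpow_le_rpow (Real.rpow_nonneg (norm_nonneg _) r) h2 (by positivity)
    · have h1 : Tendsto (fun n => 2 / c * (L - φ (u n))) atTop (𝓝 (2 / c * (L - L))) :=
        (tendsto_const_nhds.sub hlim).const_mul _
      rw [sub_self, mul_zero] at h1
      have h2 := h1.rpow_const (p := r⁻¹) (Or.inr (by positivity))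
      rwa [Real.zero_rpow (by positivity)] at h2
  obtain ⟨x, hx⟩ := cauchySeq_tendsto_of_complete hcau
  have hDx : 1 / 2 ≤ D x := by
    have h1 : Tendsto (fun n => D (u n)) atTop (𝓝 (D x)) := (hDc.tendsto x).comp hx
    refine ge_of_tendsto' h1 fun n => ?_
    have h2 := (huR 0 n (Nat.zero_le n)).2.2
    rw [hu0] at h2
    have h3 : D (x₀ : ell p) = 1 := hD0
    rw [h3] at h2
    have h4 : ε * (φ (u n) - φ (x₀ : ell p)) ≤ ε * (M ^ r + 1) :=
      mul_le_mul_of_nonneg_left (by linarith [hφM (u n), hφ0 (x₀ : ell p)]) hε0.le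
    have h5 : ε * (M ^ r + 1) = 1 / 2 := by rw [hε]; field_simp
    linarith
  obtain ⟨δ, τ, hδ, hτ, hstep⟩ := good_step hp m hm1 hmr hmr' hodd H hH M hM x hDx ε hε0
  set g : ℝ := c * δ ^ r with hg
  have hg0 : 0 < g := by
    have := Real.rpow_pos_of_pos hδ r
    positivity
  have hnear : ∀ᶠ n in atTop, dist (u n : ell p) x < τ := hx.eventually (Metric.ball_mem_nhds x hτ)
  have hsmall : ∀ᶠ n : ℕ in atTop, 1 / ((n : ℝ) + 1) < g / 2 :=
    (tendsto_order.1 tendsto_one_div_add_atTop_nhds_zero_nat).2 (g / 2) (by positivity)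
  have hclose : ∀ᶠ n in atTop, L - g / 2 < φ (u n) :=
    (tendsto_order.1 hlim).1 (L - g / 2) (by linarith)
  obtain ⟨n, hn1, hn2, hn3⟩ := (hnear.and (hsmall.and hclose)).exists
  have hfin : ∀ᶠ k in (U : Filter ℕ), (u n : ell p) k = 0 := by
    have h1 : ∀ᶠ k in Filter.cofinite, (u n : ell p) k = 0 := by
      rw [Filter.eventually_cofinite]
      exact (u n).2
    exact h1.filter_mono Filter.hyperfilter_le_cofinite
  obtain ⟨k, hk1, hk2⟩ := ((hstep (u n) hn1).and hfin).exists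
  have hne : ∀ᶠ l in (U : Filter ℕ), l ≠ k := by
    have h1 : ∀ᶠ l in Filter.cofinite, l ≠ k := by
      rw [Filter.eventually_cofinite]
      simp
    exact h1.filter_mono Filter.hyperfilter_le_cofinite
  obtain ⟨l, ⟨hl1, hl2⟩, hl3, hl4⟩ := (hk1.and (hfin.and hne)).exists
  have hfinite : {i | ((u n : ell p) + δ • (e p k - e p l)) i ≠ 0}.Finite := by
    refine ((u n).2.union (Set.toFinite {k, l})).subset fun i hi => ?_
    by_contra hcon
    rw [Set.mem_union, not_or] at hcon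
    obtain ⟨hc1, hc2⟩ := hcon
    simp only [Set.mem_setOf_eq, not_not] at hc1
    simp only [Set.mem_insert_iff, Set.mem_singleton_iff, not_or] at hc2
    apply hi
    change (u n : ell p) i + δ * (e p k i - e p l i) = 0
    rw [hc1, e_ne hc2.1, e_ne hc2.2]
    ring
  let y : Y := ⟨(u n : ell p) + δ • (e p k - e p l), hfinite⟩
  have hφy : φ (u n) + g ≤ φ y := hl1
  have hRy : R (u n) y := by
    refine ⟨fun i hi => ?_, ?_, ?_⟩
    · change (u n : ell p) i + δ * (e p k i - e p l i) = (u n : ell p) i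
      have h1 : i ≠ k := fun h => hi (by rw [h]; exact hk2)
      have h2 : i ≠ l := fun h => hi (by rw [h]; exact hl3)
      rw [e_ne h1, e_ne h2]
      ring
    · have h1 : (y : ell p) - u n = δ • (e p k - e p l) := add_sub_cancel_left _ _
      rw [h1, norm_diff_rpow hp k l hl4.symm δ hδ]
      have h2 : c / 2 * (2 * δ ^ r) = g := by rw [hg]; ring
      change c / 2 * (2 * δ ^ r) ≤ _
      rw [h2]
      linarith
    · have h1 : |D y - D (u n)| ≤ ε * g := hl2
      have h2 := (abs_le.1 h1).1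
      have h3 : ε * g ≤ ε * (φ y - φ (u n)) := mul_le_mul_of_nonneg_left (by linarith) hε0.le
      linarith
  have h1 := hugreedy n y hRy
  have h2 := hleL (n + 1)
  have h3 : φ y ≤ L + 1 / ((n : ℝ) + 1) := le_trans h1 (by linarith)
  linarith

end final

/-- For `1 ≤ p < ∞`, `p` not an even integer, `ℓ_p` admits no `C^∞` blid map; in fact it admits no
`C^{⌊p⌋+2}` blid map. -/
theorem result (p : ℝ≥0∞) [Fact (1 ≤ p)] (hp : p ≠ ∞) (heven : ∀ n : ℕ, p ≠ 2 * n) :
    (¬ ∃ H : ell p → ell p, IsBlid ⊤ H) ∧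
    ¬ ∃ H : ell p → ell p, IsBlid ((⌊p.toReal⌋₊ + 2 : ℕ) : ℕ∞) H := by
  have hr1 : 1 ≤ p.toReal := one_le_r hp
  have key : ¬ ∃ H : ell p → ell p, IsBlid ((⌊p.toReal⌋₊ + 2 : ℕ) : ℕ∞) H := by
    rintro ⟨H, hH, ⟨M, hM⟩, h0⟩
    refine main hp ⌊p.toReal⌋₊ ?_ (Nat.floor_le (by linarith)) (Nat.lt_floor_add_one _) ?_ H
      (by exact_mod_cast hH) M hM h0
    · exact Nat.le_floor (by exact_mod_cast hr1)
    · intro h
      by_contra hodd
      rw [Nat.not_odd_iff_even] at hodd
      obtain ⟨n, hn⟩ := hodd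
      apply heven n
      rw [← ENNReal.ofReal_toReal hp, ← h, hn]
      push_cast
      rw [ENNReal.ofReal_add (by positivity) (by positivity), ENNReal.ofReal_natCast]
      ring
  refine ⟨?_, key⟩
  rintro ⟨H, hH, hM, h0⟩
  exact key ⟨H, hH.of_le (by exact_mod_cast le_top), hM, h0⟩

end Pool.Agent.Results.MP_94b2f9_an.NoBlid
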